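import Pool.Agent.SCF.Def

/-!
# The number of zeros of the cubic form in six variables over a finite field

From the sums `∑_{u, w} η(u³ + (3u + θ)² + t w³)` (hypothesis `hS`) to the number of solutions of
`f = t` and of `F = 0`.  Put `K t` = number of cube roots of `t`.  Then for all `t`
`#{f = t} = q² - s + 3 q (K t - 1) + [t = 0] q s`, `s = ∑_u η(u³ + (3u + θ)²)`.
-/

set_option autoImplicit false

namespace SCF

open Finset

/-- the sum over `u` -/
noncomputable def sE {L : Type} [Field L] [Fintype L] [DecidableEq L] (θ : L) : ℤ :=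
  ∑ u : L, quadraticChar L (u ^ 3 + (3 * u + θ) ^ 2)

namespace Cnt

variable {L : Type} [Field L] [Fintype L] [DecidableEq L]

omit [Fintype L] [DecidableEq L] in
lemma ringChar_ne (h2 : (2 : L) ≠ 0) : ringChar L ≠ 2 := by
  intro h
  apply h2
  have := ringChar.Nat.cast_ringChar (R := L)
  rw [h] at this
  exact_mod_cast this

/-- the number of square roots -/
lemma sum_sq (h2 : (2 : L) ≠ 0) (k : L) :
    (∑ y : L, if y ^ 2 = k then (1 : ℤ) else 0) = 1 + quadraticChar L k := by
  have h := quadraticChar_card_sqrts (ringChar_ne h2) k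
  rw [Finset.sum_boole, add_comm, ← h]
  congr 1
  refine congrArg Finset.card ?_
  ext y
  simp

/-- the number of cube roots -/
def kk (t : L) : ℤ := ∑ m : L, if m ^ 3 = t then (1 : ℤ) else 0

lemma kk_zero : kk (0 : L) = 1 := by
  unfold kk
  have h : ∀ m : L, (if m ^ 3 = 0 then (1 : ℤ) else 0) = if m = 0 then 1 else 0 := by
    intro m
    exact if_congr (pow_eq_zero_iff three_ne_zero) rfl rfl
  simp_rw [h]
  rw [Finset.sum_ite_eq' Finset.univ (0 : L), if_pos (Finset.mem_univ _)]

lemma kk_neg (t : L) : kk (-t) = kk t := by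
  unfold kk
  refine Fintype.sum_bijective (fun m : L => -m) (Equiv.neg L).bijective _ _ fun m => ?_
  refine if_congr ?_ rfl rfl
  rw [Odd.neg_pow (by decide)]
  constructor
  · intro h
    rw [h, neg_neg]
  · intro h
    rw [← h, neg_neg]

lemma sum_kk : (∑ t : L, kk t) = (Fintype.card L : ℤ) := by
  unfold kk
  rw [Finset.sum_comm]
  have h : ∀ m : L, (∑ t : L, if m ^ 3 = t then (1 : ℤ) else 0) = 1 := by
    intro m
    rw [Finset.sum_ite_eq Finset.univ (m ^ 3), if_pos (Finset.mem_univ _)]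
  simp_rw [h]
  rw [Finset.sum_const, Finset.card_univ, nsmul_eq_mul, mul_one]

omit [DecidableEq L] in
/-- a primitive cube root of unity -/
lemma exists_omega (hq : Fintype.card L % 3 = 1) : ∃ ω : L, ω ≠ 1 ∧ ω ^ 2 + ω + 1 = 0 := by
  classical
  have : Fact (Nat.Prime 3) := ⟨Nat.prime_three⟩
  have hd : 3 ∣ Fintype.card Lˣ := by
    rw [Fintype.card_units]
    have := Fintype.card_pos (α := L)
    omega
  obtain ⟨w, hw⟩ := exists_prime_orderOf_dvd_card 3 hd
  have h3 : w ^ 3 = 1 := by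
    rw [← hw]
    exact pow_orderOf_eq_one w
  have h1 : (w : L) ≠ 1 := by
    intro h
    have : w = 1 := Units.ext h
    rw [this, orderOf_one] at hw
    exact absurd hw (by decide)
  refine ⟨w, h1, ?_⟩
  have h3' : (w : L) ^ 3 = 1 := by
    rw [← Units.val_pow_eq_pow_val, h3, Units.val_one]
  have h : ((w : L) - 1) * ((w : L) ^ 2 + w + 1) = 0 := by linear_combination h3'
  rcases mul_eq_zero.mp h with h | h
  · exact absurd (sub_eq_zero.mp h) h1
  · exact h

open scoped Classical in
lemma kk_ne (hq : Fintype.card L % 3 = 1) {t : L} (ht : t ≠ 0) :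
    kk t = if ∃ c : L, c ^ 3 = t then 3 else 0 := by
  obtain ⟨ω, hω1, hω⟩ := exists_omega hq
  have hω3 : ω ^ 3 = 1 := by linear_combination (ω - 1) * hω
  have hω0 : ω ≠ 0 := by
    rintro rfl
    rw [zero_pow three_ne_zero] at hω3
    exact zero_ne_one hω3
  have h31 : ω ^ 2 ≠ 1 := by
    intro h
    have h' : ω * ω ^ 2 = 1 := by rw [← hω3]; ring
    rw [h, mul_one] at h'
    exact hω1 h'
  unfold kk
  split_ifs with hc
  · obtain ⟨c, hc⟩ := hc
    have hc0 : c ≠ 0 := by
      rintro rfl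
      rw [zero_pow three_ne_zero] at hc
      exact ht hc.symm
    have h : ∀ m : L, (if m ^ 3 = t then (1 : ℤ) else 0) =
        (if m = c then 1 else 0) + (if m = ω * c then 1 else 0) + (if m = ω ^ 2 * c then 1 else 0) := by
      intro m
      have d1 : c ≠ ω * c := by
        intro h
        apply hω1
        refine mul_right_cancel₀ hc0 ?_
        rw [one_mul]
        exact h.symm
      have d2 : c ≠ ω ^ 2 * c := by
        intro h
        apply h31
        refine mul_right_cancel₀ hc0 ?_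
        rw [one_mul]
        exact h.symm
      have d3 : ω * c ≠ ω ^ 2 * c := by
        intro h
        apply hω1
        have h' := mul_right_cancel₀ hc0 h
        refine mul_left_cancel₀ hω0 ?_
        rw [mul_one, ← sq]
        exact h'.symm
      by_cases hm : m ^ 3 = t
      · rw [if_pos hm]
        have hp : (m - c) * ((m - ω * c) * (m - ω ^ 2 * c)) = 0 := by
          have : (m - c) * ((m - ω * c) * (m - ω ^ 2 * c)) = m ^ 3 - c ^ 3 := by
            linear_combination (m - c) * (-(m * c) + (ω - 1) * c ^ 2) * hω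
          rw [this, hm, hc, sub_self]
        rcases mul_eq_zero.mp hp with h | h
        · rw [sub_eq_zero] at h
          subst h
          rw [if_pos rfl, if_neg d1, if_neg d2]
          rfl
        · rcases mul_eq_zero.mp h with h | h
          · rw [sub_eq_zero] at h
            subst h
            rw [if_neg (Ne.symm d1), if_pos rfl, if_neg d3]
            rfl
          · rw [sub_eq_zero] at h
            subst h
            rw [if_neg (Ne.symm d2), if_neg (Ne.symm d3), if_pos rfl]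
            rfl
      · rw [if_neg hm]
        have e1 : m ≠ c := by
          rintro rfl
          exact hm hc
        have e2 : m ≠ ω * c := by
          rintro rfl
          apply hm
          linear_combination hc + c ^ 3 * hω3
        have e3 : m ≠ ω ^ 2 * c := by
          rintro rfl
          apply hm
          linear_combination hc + c ^ 3 * (ω ^ 3 + 1) * hω3
        rw [if_neg e1, if_neg e2, if_neg e3]
        rfl
    simp_rw [h, Finset.sum_add_distrib, Finset.sum_ite_eq', if_pos (Finset.mem_univ _)]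
    rfl
  · refine Finset.sum_eq_zero fun m _ => ?_
    rw [if_neg]
    intro h
    exact hc ⟨m, h⟩

/-- the fibre -/
def nn (θ t : L) : ℤ := ∑ v : L × L × L, if ff θ v.1 v.2.1 v.2.2 = t then (1 : ℤ) else 0

lemma nn_eq_card (θ t : L) :
    (Nat.card {v : L × L × L // ff θ v.1 v.2.1 v.2.2 = t} : ℤ) = nn θ t := by
  rw [Nat.card_eq_fintype_card, Fintype.card_subtype, Finset.natCast_card_filter]
  rfl

/-- one `z ≠ 0` -/
lemma sum_z (h2 : (2 : L) ≠ 0) (θ t : L) {z : L} (hz : z ≠ 0) :
    (∑ m : L, ∑ y : L, if ff θ m y z = t then (1 : ℤ) else 0) =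
      ∑ u : L, (1 + quadraticChar L (u ^ 3 + (3 * u + θ) ^ 2 + t * z⁻¹ ^ 3)) := by
  symm
  refine Fintype.sum_bijective (fun u : L => u * z) (mulRight_bijective₀ z hz) _ _ fun u => ?_
  rw [← sum_sq h2]
  refine Fintype.sum_bijective (fun y : L => y * z) (mulRight_bijective₀ z hz) _ _ fun y => ?_
  refine if_congr ?_ rfl rfl
  have hz3 : z ^ 3 ≠ 0 := pow_ne_zero 3 hz
  have hzi : z⁻¹ ^ 3 * z ^ 3 = 1 := by
    rw [← mul_pow, inv_mul_cancel₀ hz, one_pow]
  unfold ff
  constructor
  · intro h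
    linear_combination z ^ 3 * h + t * hzi
  · intro h
    refine mul_right_cancel₀ hz3 ?_
    linear_combination h - t * hzi

/-- `z = 0` -/
lemma sum_z0 (θ t : L) :
    (∑ m : L, ∑ y : L, if ff θ m y 0 = t then (1 : ℤ) else 0) = Fintype.card L * kk t := by
  have h : ∀ m : L, (∑ y : L, if ff θ m y 0 = t then (1 : ℤ) else 0) =
      Fintype.card L * if m ^ 3 = -t then (1 : ℤ) else 0 := by
    intro m
    have h' : ∀ y : L, (if ff θ m y 0 = t then (1 : ℤ) else 0) = if m ^ 3 = -t then (1 : ℤ) else 0 := by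
      intro y
      refine if_congr ?_ rfl rfl
      unfold ff
      constructor
      · intro h
        linear_combination -h
      · intro h
        linear_combination -h
    simp_rw [h']
    rw [Finset.sum_const, Finset.card_univ, nsmul_eq_mul]
  simp_rw [h]
  rw [← Finset.mul_sum]
  congr 1
  exact kk_neg t

/-- the number of solutions of `f = t` in terms of the double sum -/
lemma nn_eq (h2 : (2 : L) ≠ 0) (θ t : L) :
    nn θ t = Fintype.card L * kk t + (Fintype.card L : ℤ) ^ 2 - Fintype.card L +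
      (∑ u : L, ∑ w : L, quadraticChar L (u ^ 3 + (3 * u + θ) ^ 2 + t * w ^ 3)) - sE θ := by
  have h0 : nn θ t = ∑ z : L, ∑ m : L, ∑ y : L, if ff θ m y z = t then (1 : ℤ) else 0 := by
    unfold nn
    rw [Fintype.sum_prod_type]
    simp_rw [Fintype.sum_prod_type]
    exact (Finset.sum_congr rfl fun m _ => Finset.sum_comm).trans Finset.sum_comm
  set G : L → ℤ := fun w => ∑ u : L, (1 + quadraticChar L (u ^ 3 + (3 * u + θ) ^ 2 + t * w ^ 3))
    with hG
  have hG0 : G 0 = Fintype.card L + sE θ := by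
    rw [hG]
    show (∑ u : L, (1 + quadraticChar L (u ^ 3 + (3 * u + θ) ^ 2 + t * 0 ^ 3))) = _
    rw [zero_pow three_ne_zero, mul_zero]
    simp_rw [add_zero]
    rw [Finset.sum_add_distrib, Finset.sum_const, Finset.card_univ, nsmul_eq_mul, mul_one]
    rfl
  have hGs : (∑ w : L, G w) = (Fintype.card L : ℤ) ^ 2 +
      ∑ u : L, ∑ w : L, quadraticChar L (u ^ 3 + (3 * u + θ) ^ 2 + t * w ^ 3) := by
    rw [hG, Finset.sum_comm (f := fun u w => quadraticChar L (u ^ 3 + (3 * u + θ) ^ 2 + t * w ^ 3))]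
    show (∑ w : L, ∑ u : L, (1 + quadraticChar L (u ^ 3 + (3 * u + θ) ^ 2 + t * w ^ 3))) = _
    simp_rw [Finset.sum_add_distrib]
    rw [Finset.sum_const, Finset.sum_const, Finset.card_univ, nsmul_eq_mul, nsmul_eq_mul, mul_one, sq]
  have hz : ∀ z : L, (∑ m : L, ∑ y : L, if ff θ m y z = t then (1 : ℤ) else 0) =
      G z⁻¹ + if z = 0 then Fintype.card L * kk t - G 0 else 0 := by
    intro z
    split_ifs with h
    · subst h
      rw [sum_z0, inv_zero]
      ring
    · rw [sum_z h2 θ t h, add_zero]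
  rw [h0]
  simp_rw [hz]
  have hinv : (∑ z : L, G z⁻¹) = ∑ w : L, G w :=
    Fintype.sum_bijective (fun z : L => z⁻¹) (inv_involutive.bijective) _ _ fun z => rfl
  rw [Finset.sum_add_distrib, Finset.sum_ite_eq' Finset.univ (0 : L), if_pos (Finset.mem_univ _), hinv,
    hGs, hG0]
  ring

open scoped Classical in
/-- all fibres at once -/
lemma nn_main (h2 : (2 : L) ≠ 0) {θ : L} (hq : Fintype.card L % 3 = 1)
    (hS : ∀ t : L, t ≠ 0 → ∑ u : L, ∑ w : L,
      quadraticChar L (u ^ 3 + (3 * u + θ) ^ 2 + t * w ^ 3) =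
        if ∃ c : L, c ^ 3 = t then 4 * (Fintype.card L : ℤ) else -2 * (Fintype.card L : ℤ)) (t : L) :
    nn θ t = (Fintype.card L : ℤ) ^ 2 - sE θ + 3 * Fintype.card L * (kk t - 1) +
      if t = 0 then Fintype.card L * sE θ else 0 := by
  rw [nn_eq h2]
  by_cases ht : t = 0
  · subst ht
    rw [if_pos rfl, kk_zero]
    have : (∑ u : L, ∑ w : L, quadraticChar L (u ^ 3 + (3 * u + θ) ^ 2 + 0 * w ^ 3)) =
        Fintype.card L * sE θ := by
      simp_rw [zero_mul, add_zero, Finset.sum_const, Finset.card_univ, nsmul_eq_mul]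
      rw [← Finset.mul_sum]
      rfl
    rw [this]
    ring
  · rw [if_neg ht, hS t ht, kk_ne hq ht]
    split_ifs <;> ring

/-- the number of zeros of `F` as a sum over the fibres -/
lemma card_eq (θ : L) :
    (Nat.card {v : Fin 6 → L // FF θ v = 0} : ℤ) = ∑ t : L, nn θ t * nn θ (-t) := by
  have h1 : Nat.card {v : Fin 6 → L // FF θ v = 0} =
      Nat.card {p : (L × L × L) × (L × L × L) //
        ff θ p.2.1 p.2.2.1 p.2.2.2 = -ff θ p.1.1 p.1.2.1 p.1.2.2} := by
    refine Nat.card_congr (Equiv.subtypeEquiv ⟨fun v => ((v 0, v 1, v 2), (v 3, v 4, v 5)),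
      fun p => ![p.1.1, p.1.2.1, p.1.2.2, p.2.1, p.2.2.1, p.2.2.2], fun v => ?_, fun p => rfl⟩
      fun v => ?_)
    · funext i
      fin_cases i <;> rfl
    · show FF θ v = 0 ↔ ff θ (v 3) (v 4) (v 5) = -ff θ (v 0) (v 1) (v 2)
      unfold FF
      rw [add_comm]
      exact add_eq_zero_iff_eq_neg
  rw [h1, Nat.card_eq_fintype_card, Fintype.card_subtype, Finset.natCast_card_filter,
    Fintype.sum_prod_type]
  have h2 : ∀ p : L × L × L, (∑ r : L × L × L,
      if ff θ r.1 r.2.1 r.2.2 = -ff θ p.1 p.2.1 p.2.2 then (1 : ℤ) else 0) =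
      ∑ t : L, (if ff θ p.1 p.2.1 p.2.2 = t then (1 : ℤ) else 0) * nn θ (-t) := by
    intro p
    rw [Finset.sum_eq_single (ff θ p.1 p.2.1 p.2.2)]
    · rw [if_pos rfl, one_mul]
      rfl
    · intro t _ ht
      rw [if_neg (Ne.symm ht), zero_mul]
    · intro h
      exact absurd (Finset.mem_univ _) h
  simp_rw [h2]
  rw [Finset.sum_comm]
  refine Finset.sum_congr rfl fun t _ => ?_
  rw [← Finset.sum_mul]
  rfl

lemma kk_sq (hq : Fintype.card L % 3 = 1) (t : L) :
    kk t ^ 2 = 3 * kk t - if t = 0 then 2 else 0 := by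
  classical
  by_cases ht : t = 0
  · subst ht
    rw [kk_zero, if_pos rfl]
    norm_num
  · rw [kk_ne hq ht, if_neg ht]
    split_ifs <;> norm_num

end Cnt

open scoped Classical in
theorem card_ff {L : Type} [Field L] [Fintype L] [DecidableEq L] {θ : L} (h2 : (2 : L) ≠ 0)
    (hq : Fintype.card L % 3 = 1)
    (hS : ∀ t : L, t ≠ 0 → ∑ u : L, ∑ w : L,
      quadraticChar L (u ^ 3 + (3 * u + θ) ^ 2 + t * w ^ 3) =
        if ∃ c : L, c ^ 3 = t then 4 * (Fintype.card L : ℤ) else -2 * (Fintype.card L : ℤ)) (t : L) :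
    (Nat.card {v : L × L × L // ff θ v.1 v.2.1 v.2.2 = t} : ℤ) =
      if t = 0 then (Fintype.card L : ℤ) ^ 2 + (Fintype.card L - 1) * sE θ
      else (Fintype.card L : ℤ) ^ 2 - sE θ +
        if ∃ c : L, c ^ 3 = t then 6 * (Fintype.card L : ℤ) else -3 * (Fintype.card L : ℤ) := by
  rw [Cnt.nn_eq_card, Cnt.nn_main h2 hq hS]
  by_cases ht : t = 0
  · subst ht
    rw [if_pos rfl, if_pos rfl, Cnt.kk_zero]
    ring
  · rw [if_neg ht, if_neg ht, Cnt.kk_ne hq ht]
    split_ifs <;> ring

open scoped Classical in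
theorem card_FF {L : Type} [Field L] [Fintype L] [DecidableEq L] {θ : L} (h2 : (2 : L) ≠ 0)
    (hq : Fintype.card L % 3 = 1)
    (hS : ∀ t : L, t ≠ 0 → ∑ u : L, ∑ w : L,
      quadraticChar L (u ^ 3 + (3 * u + θ) ^ 2 + t * w ^ 3) =
        if ∃ c : L, c ^ 3 = t then 4 * (Fintype.card L : ℤ) else -2 * (Fintype.card L : ℤ)) :
    (Nat.card {v : Fin 6 → L // FF θ v = 0} : ℤ) =
      (Fintype.card L : ℤ) ^ 5 + (Fintype.card L - 1) *
        ((Fintype.card L : ℤ) * sE θ ^ 2 + 18 * (Fintype.card L : ℤ) ^ 2) := by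
  rw [Cnt.card_eq]
  set q : ℤ := (Fintype.card L : ℤ) with hqd
  set s : ℤ := sE θ with hs
  have h : ∀ t : L, Cnt.nn θ t * Cnt.nn θ (-t) = (q ^ 2 - s - 3 * q) ^ 2 +
      (6 * q * (q ^ 2 - s - 3 * q) + 27 * q ^ 2) * Cnt.kk t +
      if t = 0 then 2 * (q ^ 2 - s) * (q * s) + (q * s) ^ 2 - 18 * q ^ 2 else 0 := by
    intro t
    have hk := Cnt.kk_sq hq t
    rw [Cnt.nn_main h2 hq hS, Cnt.nn_main h2 hq hS, Cnt.kk_neg, ← hqd, ← hs]
    by_cases ht : t = 0
    · subst ht
      rw [neg_zero, if_pos rfl, if_pos rfl, Cnt.kk_zero]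
      ring
    · rw [if_neg (neg_ne_zero.mpr ht), if_neg ht, if_neg ht]
      rw [if_neg ht, sub_zero] at hk
      linear_combination 9 * q ^ 2 * hk
  simp_rw [h]
  rw [Finset.sum_add_distrib, Finset.sum_add_distrib, ← Finset.mul_sum, Cnt.sum_kk, Finset.sum_const,
    Finset.card_univ, nsmul_eq_mul, Finset.sum_ite_eq' Finset.univ (0 : L),
    if_pos (Finset.mem_univ _), ← hqd]
  ring

end SCF
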