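import Pool.Agent.SCF.Def

/-!
# Smoothness of the cubic fourfold

`f = y² z - m³ - z (3 m + θ z)²` has the partials `-3 m² - 6 z (3 m + θ z)`, `2 y z`,
`y² - 3 (3 m + θ z) (m + θ z)`.  If `z = 0` then `m = 0`, `y = 0`.  If `z ≠ 0` then `y = 0` and
`3 m = -θ z` (then `m = 0`, contradiction) or `m = -θ z` (then `θ (θ - 4) z² = 0`, contradiction).
-/

set_option autoImplicit false

namespace SCF

open MvPolynomial

private theorem core {A : Type} [Field A] {θ m y z : A} (h2 : (2 : A) ≠ 0) (h3 : (3 : A) ≠ 0)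
    (hθ : θ ≠ 0) (hθ4 : θ ≠ 4) (hm : -(3 * m ^ 2) - 6 * z * (3 * m + θ * z) = 0)
    (hy : 2 * y * z = 0) (hz : y ^ 2 - 3 * ((3 * m + θ * z) * (m + θ * z)) = 0) :
    m = 0 ∧ y = 0 ∧ z = 0 := by
  by_cases h : z = 0
  · subst h
    have h1 : 3 * m ^ 2 = 0 := by linear_combination -hm
    have h4 : m = 0 := by
      rcases mul_eq_zero.1 h1 with h | h
      · exact absurd h h3
      · exact pow_eq_zero_iff (two_ne_zero) |>.1 h
    subst h4
    have h5 : y ^ 2 = 0 := by linear_combination hz
    exact ⟨rfl, pow_eq_zero_iff (two_ne_zero) |>.1 h5, rfl⟩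
  · exfalso
    have h1 : y = 0 := by
      rcases mul_eq_zero.1 hy with h' | h'
      · rcases mul_eq_zero.1 h' with h'' | h''
        · exact absurd h'' h2
        · exact h''
      · exact absurd h' h
    subst h1
    have h4 : 3 * ((3 * m + θ * z) * (m + θ * z)) = 0 := by linear_combination -hz
    rcases mul_eq_zero.1 ((mul_eq_zero.1 h4).resolve_left h3) with h5 | h5
    · have h6 : 3 * m ^ 2 = 0 := by linear_combination -hm - 6 * z * h5
      have h7 : m = 0 := by
        rcases mul_eq_zero.1 h6 with h | h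
        · exact absurd h h3
        · exact pow_eq_zero_iff (two_ne_zero) |>.1 h
      subst h7
      have h8 : θ * z = 0 := by linear_combination h5
      exact (mul_ne_zero hθ h) h8
    · have h6 : m = -(θ * z) := by linear_combination h5
      subst h6
      have h7 : (3 * θ * (θ - 4)) * z ^ 2 = 0 := by linear_combination -hm
      exact mul_ne_zero (mul_ne_zero (mul_ne_zero h3 hθ) (sub_ne_zero.2 hθ4)) (pow_ne_zero 2 h) h7

theorem smooth_PP {K A : Type} [Field K] [Field A] [Algebra K A] {θ : K} (h2 : (2 : K) ≠ 0)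
    (h3 : (3 : K) ≠ 0) (hθ : θ ≠ 0) (hθ4 : θ ≠ 4) (v : Fin 6 → A)
    (h1 : ∀ j, aeval v (pderiv j (PP θ)) = 0) : v = 0 := by
  have inj : Function.Injective (algebraMap K A) := (algebraMap K A).injective
  have e2 : (2 : A) ≠ 0 := by rw [← map_ofNat (algebraMap K A) 2, Ne, map_eq_zero]; exact h2
  have e3 : (3 : A) ≠ 0 := by rw [← map_ofNat (algebraMap K A) 3, Ne, map_eq_zero]; exact h3
  have e0 : algebraMap K A θ ≠ 0 := by rw [Ne, map_eq_zero]; exact hθ
  have e4 : algebraMap K A θ ≠ 4 := by
    rw [← map_ofNat (algebraMap K A) 4]; exact fun h => hθ4 (inj h)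
  have hd3 : ∀ j : Fin 6, pderiv j (3 : MvPolynomial (Fin 6) K) = 0 := by
    intro j
    have := pderiv_C (R := K) (σ := Fin 6) (a := 3) (i := j)
    rwa [map_ofNat] at this
  have d0 := h1 0
  have d1 := h1 1
  have d2 := h1 2
  have d3 := h1 3
  have d4 := h1 4
  have d5 := h1 5
  simp only [PP, map_add, map_sub, Derivation.leibniz, Derivation.leibniz_pow, pderiv_X, pderiv_C,
    smul_eq_mul, map_mul, map_pow, aeval_X, aeval_C, Pi.single_apply, map_zero,
    nsmul_eq_mul, map_natCast, hd3] at d0 d1 d2 d3 d4 d5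
  simp at d0 d1 d2 d3 d4 d5
  obtain ⟨r0, r1, r2⟩ := core (θ := algebraMap K A θ) (m := v 0) (y := v 1) (z := v 2) e2 e3 e0 e4
    (by linear_combination d0) (by
      rcases d1 with h | h | h
      · rw [h]; ring
      · exact absurd h e2
      · rw [h]; ring) (by linear_combination d2)
  obtain ⟨r3, r4, r5⟩ := core (θ := algebraMap K A θ) (m := v 3) (y := v 4) (z := v 5) e2 e3 e0 e4
    (by linear_combination d3) (by
      rcases d4 with h | h | h
      · rw [h]; ring
      · exact absurd h e2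
      · rw [h]; ring) (by linear_combination d5)
  funext i
  fin_cases i
  · exact r0
  · exact r1
  · exact r2
  · exact r3
  · exact r4
  · exact r5

theorem homog_PP {K : Type} [Field K] (θ : K) : (PP θ).IsHomogeneous 3 := by
  have hX : ∀ i : Fin 6, (X i : MvPolynomial (Fin 6) K).IsHomogeneous 1 := fun i =>
    isHomogeneous_X K i
  have hC : ∀ t : K, (C t : MvPolynomial (Fin 6) K).IsHomogeneous 0 := fun t =>
    isHomogeneous_C _ t
  have h3 : (3 : MvPolynomial (Fin 6) K).IsHomogeneous 0 := by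
    have := hC 3
    rwa [map_ofNat] at this
  have key : ∀ i j k : Fin 6, (X j ^ 2 * X k - X i ^ 3 - X k * (3 * X i + C θ * X k) ^ 2 :
      MvPolynomial (Fin 6) K).IsHomogeneous 3 := by
    intro i j k
    refine (IsHomogeneous.sub ?_ ?_).sub ?_
    · simpa using ((hX j).pow 2).mul (hX k)
    · simpa using (hX i).pow 3
    · have h4 : (3 * X i + C θ * X k : MvPolynomial (Fin 6) K).IsHomogeneous 1 := by
        refine IsHomogeneous.add ?_ ?_
        · simpa using h3.mul (hX i)
        · simpa using (hC θ).mul (hX k)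
      simpa using (hX k).mul (h4.pow 2)
  unfold PP
  exact (key 0 1 2).add (key 3 4 5)

theorem PP_ne_zero {K : Type} [Field K] {θ : K} : PP θ ≠ 0 := by
  intro h
  have h1 := congrArg (aeval (![1, 0, 0, 0, 0, 0] : Fin 6 → K)) h
  rw [aeval_PP, map_zero] at h1
  simp only [FF, ff, Algebra.algebraMap_self, RingHom.id_apply] at h1
  simp at h1

end SCF
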