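import Pool.Agent.SCF.CubB
import Pool.Agent.SCF.Cnt
import Pool.Agent.SCF.Smo
import Pool.Agent.SCT.Par
import Pool.Agent.SHC.LoopCount

/-!
# The number of points of the cubic fourfold over the extensions (helper83)
-/

set_option autoImplicit false

namespace SCF

open Finset MvPolynomial Pool.Agent.Hhelper85
open scoped LinearAlgebra.Projectivization

/-- The `L`-rational points of the hypersurface `F = 0` in `ℙ^n`, for a field `L` containing `K`. -/
def Points {K : Type} [Field K] {n : ℕ} (F : MvPolynomial (Fin (n + 1)) K) (L : Type) [Field L]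
    [Algebra K L] : Set (ℙ L (Fin (n + 1) → L)) :=
  {P | aeval P.rep F = 0}

/-- Supersingularity in terms of the numbers of points -/
def IsSupersingular {K : Type} [Field K] {n : ℕ} (F : MvPolynomial (Fin (n + 1)) K) : Prop :=
  ∃ s : ℕ, (∃ k : ℕ, 1 ≤ k ∧ s ^ 2 = Nat.card K ^ k) ∧ ∃ b : ℤ, ∀ m : ℕ, 1 ≤ m →
    ∀ (L : Type) [Field L] [Finite L] [Algebra K L], Nat.card L = (s ^ 2) ^ m →
      ((Points F L).ncard : ℤ) = ∑ i ∈ range n, (Nat.card L : ℤ) ^ i + b * ((s : ℤ) ^ m) ^ (n - 1)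

/-- from the number of zeros to the number of projective points -/
theorem points_of_count {L : Type} [Field L] [Fintype L] {q s : ℕ} (hq : Fintype.card L = q)
    {F : (Fin 6 → L) → L} {k : ℕ}
    (hF : ∀ (c : L) (x : Fin 6 → L), F (c • x) = c ^ (k + 1) * F x)
    (hN : (Nat.card {v : Fin 6 → L // F v = 0} : ℤ) = (q : ℤ) ^ 5 + 22 * (q - 1) * (s : ℤ) ^ 4) :
    (Nat.card {P : ℙ L (Fin 6 → L) // F P.rep = 0} : ℤ) =
      ∑ i ∈ range 5, (q : ℤ) ^ i + 22 * (s : ℤ) ^ 4 := by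
  classical
  have h1 := SHC.proj_count_gen (n := 5) hF hq
  rw [Nat.card_eq_fintype_card, Fintype.card_subtype] at hN
  have h2 : (1 : ℤ) < q := by
    have := Fintype.one_lt_card (α := L)
    rw [hq] at this
    exact_mod_cast this
  have h3 : ((q : ℤ) - 1) * (Nat.card {P : ℙ L (Fin (5 + 1) → L) // F P.rep = 0} : ℤ) =
      ((q : ℤ) - 1) * (∑ i ∈ range 5, (q : ℤ) ^ i + 22 * (s : ℤ) ^ 4) := by
    have h4 : ((q : ℤ) - 1) * (Nat.card {P : ℙ L (Fin (5 + 1) → L) // F P.rep = 0} : ℤ) =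
      (q : ℤ) ^ 5 + 22 * (q - 1) * (s : ℤ) ^ 4 - 1 := by
      rw [← hN]
      linear_combination -h1
    rw [h4]
    simp only [sum_range_succ, sum_range_zero]
    ring
  exact mul_left_cancel₀ (by omega) h3

theorem FF_smul {L : Type} [Field L] (θ t : L) (v : Fin 6 → L) :
    FF θ (t • v) = t ^ (2 + 1) * FF θ v := by
  simp only [FF, ff, Pi.smul_apply, smul_eq_mul]
  ring

/-- the parameters lie in a finite field -/
theorem exists_param {p : ℕ} [Fact p.Prime] (hp : p % 3 = 1) (hp2 : p ≠ 2) :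
    ∃ (K : Type) (_ : Field K) (_ : Fintype K) (_ : CharP K p) (T d : K),
      T ≠ 2 ∧ T ≠ -2 ∧ d ^ 3 = (2 - T) / 4 ∧
      ((Polynomial.X ^ 2 - Polynomial.C T * Polynomial.X + 1 : Polynomial K) ^
        ((p - 1) / 2)).coeff ((p - 1) / 3) = 0 := by
  classical
  obtain ⟨T, -, hT1, hT2, cB⟩ := SCT.rootB (A := AlgebraicClosure (ZMod p)) hp hp2
  obtain ⟨d, hd⟩ := IsAlgClosed.exists_pow_nat_eq ((2 - T) / 4) (n := 3) (by norm_num)
  let S : Set (AlgebraicClosure (ZMod p)) := {T, d}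
  have hSfin : S.Finite := Set.toFinite _
  let K := IntermediateField.adjoin (ZMod p) S
  have hfd : FiniteDimensional (ZMod p) K := by
    have : Finite S := hSfin
    apply IntermediateField.finiteDimensional_adjoin
    intro x _
    exact (Algebra.IsAlgebraic.isAlgebraic (R := ZMod p) x).isIntegral
  have hfin : Finite K := Module.finite_of_finite (ZMod p)
  have hmem : ∀ x ∈ S, x ∈ K := fun x hx => IntermediateField.subset_adjoin (ZMod p) S hx
  have hcK : CharP K p := charP_of_injective_algebraMap (algebraMap (ZMod p) K).injective p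
  let i : K →+* AlgebraicClosure (ZMod p) := algebraMap K (AlgebraicClosure (ZMod p))
  have hi : Function.Injective i := i.injective
  refine ⟨K, inferInstance, Fintype.ofFinite K, hcK, ⟨T, hmem _ (by simp [S])⟩,
    ⟨d, hmem _ (by simp [S])⟩, ?_, ?_, ?_, ?_⟩
  · exact fun h0 => hT1 (congrArg Subtype.val h0)
  · exact fun h0 => hT2 (congrArg Subtype.val h0)
  · exact Subtype.ext hd
  · apply hi
    rw [map_zero, ← Polynomial.coeff_map]
    simp only [Polynomial.map_pow, Polynomial.map_mul, Polynomial.map_sub, Polynomial.map_add,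
      Polynomial.map_X, Polynomial.map_C, Polynomial.map_one]
    exact cB

theorem supersingular_PP {p : ℕ} [Fact p.Prime] (hp : p % 3 = 1) (hp2 : p ≠ 2) {K : Type}
    [Field K] [Fintype K] [CharP K p] {T d : K} (hT1 : T ≠ 2) (hT2 : T ≠ -2)
    (hd : d ^ 3 = (2 - T) / 4)
    (cB : ((Polynomial.X ^ 2 - Polynomial.C T * Polynomial.X + 1 : Polynomial K) ^
        ((p - 1) / 2)).coeff ((p - 1) / 3) = 0) :
    IsSupersingular (PP (2 + T)) := by
  classical
  refine ⟨Fintype.card K ^ 12, ⟨24, by norm_num, ?_⟩, 22, ?_⟩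
  · rw [Nat.card_eq_fintype_card, ← pow_mul]
  intro m hm L _ _ _ hL
  have : Fintype L := Fintype.ofFinite L
  set i := algebraMap K L with hi
  have hchar : CharP L p := charP_of_injective_algebraMap (algebraMap K L).injective p
  obtain ⟨h2, h3⟩ := SCT.ne_of_char (F := K) hp hp2
  obtain ⟨h2', h3'⟩ := SCT.ne_of_char (F := L) hp hp2
  set q := Fintype.card K with hq
  have hLq : Fintype.card L = q ^ (24 * m) := by
    rw [← Nat.card_eq_fintype_card, hL, ← pow_mul, ← pow_mul]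
    congr 1
    ring
  have hm0 : 24 * m ≠ 0 := by omega
  have hθ : 2 + T ≠ 0 := fun h0 => hT2 (eq_neg_of_add_eq_zero_right h0)
  have hθ' : 2 - T ≠ 0 := fun h0 => hT1 (sub_eq_zero.1 h0).symm
  have hd2 : dsc 9 (6 * (2 + T)) ((2 + T) ^ 2) ≠ 0 :=
    SCT.dsc2 h2 h3 hθ (by rw [show 4 - (2 + T) = 2 - T by ring]; exact hθ')
  obtain ⟨d2, -⟩ := SCT.dvd_tr23 hp hp2 hT1 hT2 cB
  have t2 := tr_ext h2 hd2 i hm0 hLq
  rw [SCT.deuring p h2 hd2 d2 m] at t2
  have i9 : i 9 = 9 := map_ofNat i 9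
  have i6 : i 6 = 6 := map_ofNat i 6
  have i2 : i 2 = 2 := map_ofNat i 2
  have i4 : i 4 = 4 := map_ofNat i 4
  rw [i9, map_mul, i6, map_pow] at t2
  set θ : L := i (2 + T) with hθi
  have hsE : sE θ = -(2 * ((q : ℤ) ^ 12) ^ m) := by
    rw [← t2]
    unfold sE tr
    rw [neg_neg]
    refine sum_congr rfl fun u _ => ?_
    congr 1
    ring
  have hθ0 : θ ≠ 0 := (_root_.map_ne_zero i).2 hθ
  have hθ4 : θ ≠ 4 := by
    intro h0
    apply hT1
    apply i.injective
    rw [hθi, map_add, i2] at h0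
    rw [i2]
    linear_combination h0
  have hD : ∃ e : L, e ^ 3 = (4 - θ) / 4 := by
    refine ⟨i d, ?_⟩
    rw [← map_pow, hd, map_div₀, map_sub, i2, i4, hθi, map_add, i2]
    congr 1
    ring
  have hq3 : Fintype.card L % 3 = 1 := by
    obtain ⟨n, hn, hc⟩ := FiniteField.card L p
    rw [hc, Nat.pow_mod, hp, one_pow]
    norm_num
  have hcount := card_FF h2' hq3 (fun t ht => sum_S h2' hq3 hθ0 hθ4 hD t ht)
  have hcastL : (Fintype.card L : ℤ) = ((q : ℤ) ^ 12) ^ m * ((q : ℤ) ^ 12) ^ m := by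
    rw [hLq]
    push_cast
    ring
  have hN : (Nat.card {v : Fin 6 → L // FF θ v = 0} : ℤ) =
      ((Fintype.card L : ℕ) : ℤ) ^ 5 + 22 * ((Fintype.card L : ℕ) - 1) *
        (((q ^ 12) ^ m : ℕ) : ℤ) ^ 4 := by
    rw [hcount, hsE]
    push_cast
    have e1 : (Fintype.card L : ℤ) * (-(2 * ((q : ℤ) ^ 12) ^ m)) ^ 2 +
        18 * (Fintype.card L : ℤ) ^ 2 = 22 * (((q : ℤ) ^ 12) ^ m) ^ 4 := by
      rw [hcastL]; ring
    rw [e1]
    ring
  have hfin := points_of_count rfl (s := (q ^ 12) ^ m) (k := 2)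
    (fun t v => FF_smul θ t v) hN
  have hset : (Points (PP (2 + T)) L).ncard =
      Nat.card {P : ℙ L (Fin 6 → L) // FF θ P.rep = 0} := by
    rw [← Nat.card_coe_set_eq]
    refine Nat.card_congr (Equiv.subtypeEquivRight fun P => ?_)
    change aeval P.rep _ = 0 ↔ _
    rw [aeval_PP]
  rw [hset, hfin, Nat.card_eq_fintype_card]
  push_cast
  ring

end SCF
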