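import Mathlib

set_option autoImplicit false

/-!
# Cube roots and the Dickson cubic over a field with `q ≡ 1 mod 3` elements

`χ` a character of order 3.  A nonzero `v` is a cube iff `χ v = 1` (generator of the cyclic group),
and then it has the three cube roots `c, c ω, c ω²`.  The equation `y³ - 3 y = τ`:
`τ² - 4 = (y² - 4) (y² - 1)²`.  If `τ² - 4` is a nonzero square, then `y = w + 1 / w` with
`w³ = W`; if it is zero there are two solutions; if it is not a square then `y ↦ y³ - 3 y` is a
permutation of `{y : y² - 4 not a square}` (`-3` is a square).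
-/

namespace SCF

open Finset

variable {L : Type} [Field L] [Fintype L] [DecidableEq L]

omit [Fintype L] [DecidableEq L] in
private lemma chi_pow_three {χ : MulChar L ℂ} (hχ : orderOf χ = 3) {v : L} (hv : v ≠ 0) :
    χ v ^ 3 = 1 := by
  have h1 : χ ^ 3 = 1 := by rw [← hχ]; exact pow_orderOf_eq_one χ
  have h2 : (χ ^ 3) v = χ v ^ 3 := MulChar.pow_apply' χ (by norm_num) v
  rw [← h2, h1, MulChar.one_apply (isUnit_iff_ne_zero.2 hv)]

/-- A primitive cube root of unity. -/
private lemma exists_om {χ : MulChar L ℂ} (hχ : orderOf χ = 3) :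
    ∃ ω : L, ω ^ 2 + ω + 1 = 0 ∧ (3 : L) ≠ 0 := by
  have h1 : 3 ∣ Fintype.card Lˣ := by
    rw [Fintype.card_units, ← hχ]
    exact χ.orderOf_dvd_card_sub_one
  obtain ⟨x, hx⟩ := exists_prime_orderOf_dvd_card 3 h1
  have h2 : x ^ 3 = 1 := by rw [← hx]; exact pow_orderOf_eq_one x
  have h3 : x ≠ 1 := by
    rintro rfl
    rw [orderOf_one] at hx
    omega
  have h4 : (x : L) ^ 3 = 1 := by rw [← Units.val_pow_eq_pow_val, h2, Units.val_one]
  have h5 : (x : L) ≠ 1 := fun h => h3 (Units.ext h)
  have h6 : ((x : L) - 1) * ((x : L) ^ 2 + x + 1) = 0 := by linear_combination h4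
  have h7 : (x : L) ^ 2 + x + 1 = 0 := (mul_eq_zero.1 h6).resolve_left (sub_ne_zero.2 h5)
  refine ⟨x, h7, ?_⟩
  intro h8
  have h9 : ((x : L) - 1) ^ 2 = 0 := by linear_combination h7 - (x : L) * h8
  exact h5 (sub_eq_zero.1 (pow_eq_zero_iff (by norm_num) |>.1 h9))

omit [DecidableEq L] in
/-- The nonzero elements with `χ v = 1` are cubes. -/
private lemma cube_of_chi {χ : MulChar L ℂ} (hχ : orderOf χ = 3) {v : L} (hv : v ≠ 0)
    (h : χ v = 1) : ∃ c : L, c ^ 3 = v := by
  obtain ⟨g, hg⟩ := IsCyclic.exists_generator (α := Lˣ)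
  have hpow : ∀ u : Lˣ, ∃ k : ℕ, g ^ k = u := by
    intro u
    have h1 := hg u
    rw [← mem_powers_iff_mem_zpowers] at h1
    exact (Submonoid.mem_powers_iff u g).1 h1
  have hg3 : χ (g : L) ^ 3 = 1 := chi_pow_three hχ g.ne_zero
  have hg1 : χ (g : L) ≠ 1 := by
    intro h1
    have h2 : χ = 1 := by
      apply MulChar.ext
      intro u
      obtain ⟨k, rfl⟩ := hpow u
      rw [Units.val_pow_eq_pow_val, map_pow, h1, one_pow,
        MulChar.one_apply (g.isUnit.pow k)]
    rw [h2, orderOf_one] at hχ
    omega
  have hord : orderOf (χ (g : L)) = 3 := orderOf_eq_prime hg3 hg1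
  obtain ⟨k, hk⟩ := hpow (Units.mk0 v hv)
  have hk' : (g : L) ^ k = v := by
    rw [← Units.val_pow_eq_pow_val, hk, Units.val_mk0]
  rw [← hk', map_pow, ← orderOf_dvd_iff_pow_eq_one, hord] at h
  obtain ⟨l, rfl⟩ := h
  exact ⟨(g : L) ^ l, by rw [← hk', ← pow_mul, mul_comm]⟩

omit [Fintype L] [DecidableEq L] in
private lemma chi_of_cube {χ : MulChar L ℂ} (hχ : orderOf χ = 3) {v c : L} (hv : v ≠ 0)
    (h : c ^ 3 = v) : χ v = 1 := by
  have hc : c ≠ 0 := by
    rintro rfl
    apply hv
    rw [← h]
    norm_num
  rw [← h, map_pow]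
  exact chi_pow_three hχ hc

/-- the values of `χ` -/
theorem chi_cube {χ : MulChar L ℂ} (hχ : orderOf χ = 3) {v : L} (hv : v ≠ 0) :
    (if ∃ c : L, c ^ 3 = v then χ v = 1 else χ v + χ⁻¹ v = -1) := by
  split_ifs with h
  · obtain ⟨c, hc⟩ := h
    exact chi_of_cube hχ hv hc
  · have h1 : χ v ≠ 1 := fun h1 => h (cube_of_chi hχ hv h1)
    have h2 := chi_pow_three hχ hv
    have h3 : χ v ≠ 0 := by
      intro h0
      rw [h0] at h2
      norm_num at h2
    have h4 : (χ v - 1) * (χ v ^ 2 + χ v + 1) = 0 := by linear_combination h2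
    have h5 := (mul_eq_zero.1 h4).resolve_left (sub_ne_zero.2 h1)
    rw [MulChar.inv_apply_eq_inv']
    field_simp
    linear_combination h5

/-- number of cube roots; `χ` a character of order 3 (so `q ≡ 1 mod 3`) -/
theorem card_cube {χ : MulChar L ℂ} (hχ : orderOf χ = 3) (v : L) :
    ((univ.filter fun w : L => w ^ 3 = v).card : ℂ) = 1 + χ v + χ⁻¹ v := by
  by_cases hv : v = 0
  · subst hv
    have h1 : (univ.filter fun w : L => w ^ 3 = 0) = {0} := by
      ext w
      simp
    rw [h1, card_singleton, MulChar.map_nonunit _ not_isUnit_zero,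
      MulChar.map_nonunit _ not_isUnit_zero]
    norm_num
  by_cases hc : ∃ c : L, c ^ 3 = v
  · have h0 := chi_cube hχ hv
    rw [if_pos hc] at h0
    obtain ⟨c, hc⟩ := hc
    have hc0 : c ≠ 0 := by
      rintro rfl
      apply hv
      rw [← hc]
      norm_num
    obtain ⟨ω, hω, h3⟩ := exists_om hχ
    have hω0 : ω ≠ 0 := by
      rintro rfl
      norm_num at hω
    have hω1 : ω ≠ 1 := by
      rintro rfl
      apply h3
      linear_combination hω
    have hω3 : ω ^ 3 = 1 := by linear_combination (ω - 1) * hω
    have hω2 : ω ^ 2 ≠ 1 := by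
      intro h
      apply hω1
      have : ω ^ 3 = ω := by rw [pow_succ, h, one_mul]
      rw [← this, hω3]
    have h1 : (univ.filter fun w : L => w ^ 3 = v) = {c, c * ω, c * ω ^ 2} := by
      ext w
      simp only [mem_filter, mem_univ, true_and, mem_insert, mem_singleton]
      constructor
      · intro hw
        have h2 : (w - c) * ((w - c * ω) * (w - c * ω ^ 2)) = 0 := by
          have h4 : w ^ 3 = c ^ 3 := by rw [hw, hc]
          linear_combination h4 + (- w ^ 2 * c + w * c ^ 2 * ω - c ^ 3 * (ω - 1)) * hω
        rcases mul_eq_zero.1 h2 with h | h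
        · exact Or.inl (sub_eq_zero.1 h)
        · rcases mul_eq_zero.1 h with h | h
          · exact Or.inr (Or.inl (sub_eq_zero.1 h))
          · exact Or.inr (Or.inr (sub_eq_zero.1 h))
      · rintro (rfl | rfl | rfl)
        · exact hc
        · rw [mul_pow, hω3, mul_one, hc]
        · rw [mul_pow, ← pow_mul, mul_comm 2 3, pow_mul, hω3, one_pow, mul_one, hc]
    have n1 : c ≠ c * ω := fun h => hω1 (mul_left_cancel₀ hc0 (by rw [← h, mul_one]))
    have n2 : c ≠ c * ω ^ 2 := fun h => hω2 (mul_left_cancel₀ hc0 (by rw [← h, mul_one]))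
    have n3 : c * ω ≠ c * ω ^ 2 := by
      intro h
      have h4 := mul_left_cancel₀ hc0 h
      apply hω1
      have h5 : ω * ω = ω * 1 := by rw [mul_one, ← sq, ← h4]
      exact mul_left_cancel₀ hω0 h5
    rw [h1, card_insert_of_notMem, card_insert_of_notMem, card_singleton,
      MulChar.inv_apply_eq_inv', h0]
    · norm_num
    · rw [mem_singleton]
      exact n3
    · rw [mem_insert, mem_singleton]
      push Not
      exact ⟨n1, n2⟩
  · have h0 := chi_cube hχ hv
    rw [if_neg hc] at h0
    have h1 : (univ.filter fun w : L => w ^ 3 = v) = ∅ := by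
      rw [filter_eq_empty_iff]
      intro w _ hw
      exact hc ⟨w, hw⟩
    rw [h1, card_empty, add_assoc, h0]
    norm_num

/-- `-3` is a square. -/
private lemma neg_three {χ : MulChar L ℂ} (hχ : orderOf χ = 3) : ∃ s : L, s ^ 2 = -3 := by
  obtain ⟨ω, hω, -⟩ := exists_om hχ
  exact ⟨2 * ω + 1, by linear_combination 4 * hω⟩

/-- the solutions of `y³ - 3 y = τ` (Dickson polynomial) -/
theorem card_dickson {χ : MulChar L ℂ} (hχ : orderOf χ = 3) (h2 : (2 : L) ≠ 0) (τ : L) :
    ((univ.filter fun y : L => y ^ 3 - 3 * y = τ).card : ℂ) =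
      1 + ∑ W ∈ univ.filter (fun W : L => W ≠ 0 ∧ W + W⁻¹ = τ), χ W := by
  have h3 : (3 : L) ≠ 0 := (exists_om hχ).choose_spec.2
  have key : ∀ y : L, y ^ 3 - 3 * y = τ → τ ^ 2 - 4 = (y ^ 2 - 4) * (y ^ 2 - 1) ^ 2 := by
    rintro y rfl
    ring
  have hW : ∀ W : L, (W ≠ 0 ∧ W + W⁻¹ = τ) ↔ W ^ 2 - τ * W + 1 = 0 := by
    intro W
    constructor
    · rintro ⟨h0, h1⟩
      rw [← h1]
      field_simp
      ring
    · intro h1
      have h0 : W ≠ 0 := by
        rintro rfl
        norm_num at h1
      refine ⟨h0, ?_⟩
      field_simp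
      linear_combination h1
  by_cases hsq : ∃ s : L, s ^ 2 = τ ^ 2 - 4
  · obtain ⟨s, hs⟩ := hsq
    by_cases hs0 : s = 0
    · -- a double root
      subst hs0
      have h4 : (τ - 2) * (τ + 2) = 0 := by linear_combination -hs
      have hS : univ.filter (fun W : L => W ≠ 0 ∧ W + W⁻¹ = τ) = {τ / 2} := by
        ext W
        rw [mem_filter, mem_singleton, hW]
        simp only [mem_univ, true_and]
        constructor
        · intro h
          have h5 : (2 * W - τ) ^ 2 = 0 := by linear_combination 4 * h - hs
          have h6 : 2 * W - τ = 0 := (pow_eq_zero_iff (by norm_num)).1 h5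
          field_simp
          linear_combination h6
        · rintro rfl
          field_simp
          linear_combination hs
      have hchi : χ (τ / 2) = 1 := by
        rcases mul_eq_zero.1 h4 with h | h
        · have h5 : τ / 2 = 1 := by
            field_simp
            linear_combination h
          rw [h5, map_one]
        · have h5 : τ / 2 = -1 := by
            field_simp
            linear_combination h
          rw [h5]
          exact chi_of_cube hχ (by norm_num) (c := -1) (by norm_num)
      rw [hS, sum_singleton, hchi]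
      have hset : (univ.filter fun y : L => y ^ 3 - 3 * y = τ) = {τ, -(τ / 2)} := by
        ext y
        rw [mem_filter, mem_insert, mem_singleton]
        simp only [mem_univ, true_and]
        rcases mul_eq_zero.1 h4 with h | h
        · have h5 : τ = 2 := sub_eq_zero.1 h
          subst h5
          have h6 : (2 : L) / 2 = 1 := div_self h2
          rw [h6]
          constructor
          · intro hy
            have h7 : (y - 2) * (y + 1) ^ 2 = 0 := by linear_combination hy
            rcases mul_eq_zero.1 h7 with h8 | h8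
            · exact Or.inl (sub_eq_zero.1 h8)
            · exact Or.inr (eq_neg_of_add_eq_zero_left ((pow_eq_zero_iff (by norm_num)).1 h8))
          · rintro (rfl | rfl) <;> ring
        · have h5 : τ = -2 := eq_neg_of_add_eq_zero_left h
          subst h5
          have h6 : -((-2 : L) / 2) = 1 := by field_simp
          rw [h6]
          constructor
          · intro hy
            have h7 : (y + 2) * (y - 1) ^ 2 = 0 := by linear_combination hy
            rcases mul_eq_zero.1 h7 with h8 | h8
            · exact Or.inl (eq_neg_of_add_eq_zero_left h8)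
            · exact Or.inr (sub_eq_zero.1 ((pow_eq_zero_iff (by norm_num)).1 h8))
          · rintro (rfl | rfl) <;> ring
      have hne : τ ≠ -(τ / 2) := by
        intro h
        have h5 : 3 * τ = 0 := by
          field_simp at h
          linear_combination h
        have h6 : τ = 0 := (mul_eq_zero.1 h5).resolve_left h3
        rw [h6] at h4
        have h7 : (2 : L) * 2 = 0 := by linear_combination -h4
        rcases mul_eq_zero.1 h7 with h8 | h8 <;> exact h2 h8
      rw [hset, card_insert_of_notMem (by rw [mem_singleton]; exact hne), card_singleton]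
      norm_num
    · -- two roots
      set W₁ : L := (τ + s) / 2 with hW₁
      have hr : W₁ ^ 2 - τ * W₁ + 1 = 0 := by
        rw [hW₁]
        field_simp
        linear_combination hs
      have hW0 := ((hW W₁).2 hr).1
      have hWτ := ((hW W₁).2 hr).2
      have hWinv : W₁⁻¹ = (τ - s) / 2 := by
        have h5 : W₁⁻¹ = τ - W₁ := by linear_combination hWτ
        rw [h5, hW₁]
        field_simp
        ring
      have hWne : W₁ ≠ W₁⁻¹ := by
        rw [hWinv, hW₁]
        intro h
        apply hs0
        have h5 : 2 * s = 0 := by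
          field_simp at h
          linear_combination h
        exact (mul_eq_zero.1 h5).resolve_left h2
      have hS : univ.filter (fun W : L => W ≠ 0 ∧ W + W⁻¹ = τ) = {W₁, W₁⁻¹} := by
        ext W
        rw [mem_filter, mem_insert, mem_singleton, hW]
        simp only [mem_univ, true_and]
        constructor
        · intro h
          have h5 : (W - W₁) * (W - W₁⁻¹) = 0 := by
            have h6 : W₁ * W₁⁻¹ = 1 := mul_inv_cancel₀ hW0
            linear_combination h - W * hWτ + h6
          rcases mul_eq_zero.1 h5 with h6 | h6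
          · exact Or.inl (sub_eq_zero.1 h6)
          · exact Or.inr (sub_eq_zero.1 h6)
        · rintro (rfl | rfl)
          · exact hr
          · rw [← hWτ]
            field_simp
            ring
      rw [hS, sum_pair hWne]
      have hinv : χ W₁⁻¹ = χ⁻¹ W₁ := (MulChar.inv_apply' χ W₁).symm
      rw [hinv, ← add_assoc, ← card_cube hχ W₁]
      congr 1
      symm
      apply card_bij (fun w _ => w + w⁻¹)
      · intro w hw
        rw [mem_filter] at hw ⊢
        have hw0 : w ≠ 0 := by
          rintro rfl
          apply hW0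
          rw [← hw.2]
          norm_num
        refine ⟨mem_univ _, ?_⟩
        rw [← hWτ, ← hw.2]
        field_simp
        ring
      · intro w hw w' hw' h
        rw [mem_filter] at hw hw'
        have hw0 : w ≠ 0 := by
          rintro rfl
          apply hW0
          rw [← hw.2]
          norm_num
        have hw0' : w' ≠ 0 := by
          rintro rfl
          apply hW0
          rw [← hw'.2]
          norm_num
        have h5 : (w - w') * (w * w' - 1) = 0 := by
          field_simp at h
          linear_combination h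
        rcases mul_eq_zero.1 h5 with h6 | h6
        · exact sub_eq_zero.1 h6
        · exfalso
          apply hWne
          have h7 : w' = w⁻¹ := by
            field_simp
            linear_combination h6
          calc W₁ = w' ^ 3 := hw'.2.symm
            _ = W₁⁻¹ := by rw [h7, inv_pow, hw.2]
      · intro y hy
        rw [mem_filter] at hy
        have h5 := key y hy.2
        rw [← hs] at h5
        have h6 : y ^ 2 - 1 ≠ 0 := by
          intro h
          rw [h] at h5
          apply hs0
          have : s ^ 2 = 0 := by rw [h5]; ring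
          exact (pow_eq_zero_iff (by norm_num)).1 this
        set r : L := s / (y ^ 2 - 1) with hr'
        have h7 : r ^ 2 = y ^ 2 - 4 := by
          rw [hr', div_pow, h5]
          field_simp
        set w : L := (y + r) / 2 with hw
        have hw1 : w ^ 2 - y * w + 1 = 0 := by
          rw [hw]
          field_simp
          linear_combination h7
        have hw0 : w ≠ 0 := by
          intro h0
          rw [h0] at hw1
          norm_num at hw1
        have hwy : w + w⁻¹ = y := by
          field_simp
          linear_combination hw1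
        have h8 : (w ^ 3) ^ 2 - τ * w ^ 3 + 1 = 0 := by
          rw [← hy.2, ← hwy]
          field_simp
          ring
        have h9 : (w ^ 3 - W₁) * (w ^ 3 - W₁⁻¹) = 0 := by
          have h6 : W₁ * W₁⁻¹ = 1 := mul_inv_cancel₀ hW0
          linear_combination h8 - w ^ 3 * hWτ + h6
        rcases mul_eq_zero.1 h9 with h10 | h10
        · exact ⟨w, by rw [mem_filter]; exact ⟨mem_univ _, sub_eq_zero.1 h10⟩, hwy⟩
        · refine ⟨w⁻¹, ?_, ?_⟩
          · rw [mem_filter]
            refine ⟨mem_univ _, ?_⟩
            rw [inv_pow, sub_eq_zero.1 h10, inv_inv]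
          · rw [inv_inv, add_comm]
            exact hwy
  · -- no root
    have hS : univ.filter (fun W : L => W ≠ 0 ∧ W + W⁻¹ = τ) = ∅ := by
      rw [filter_eq_empty_iff]
      intro W _ h
      rw [hW] at h
      exact hsq ⟨2 * W - τ, by linear_combination 4 * h⟩
    rw [hS, sum_empty, add_zero]
    obtain ⟨t, ht⟩ := neg_three hχ
    have ht0 : t ≠ 0 := by
      rintro rfl
      apply h3
      linear_combination ht
    -- the permutation
    let S : Type := {y : L // ¬ ∃ s : L, s ^ 2 = y ^ 2 - 4}
    have hid : ∀ y : L, (y ^ 3 - 3 * y) ^ 2 - 4 = (y ^ 2 - 4) * (y ^ 2 - 1) ^ 2 := fun y => by ring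
    have hmem : ∀ y : L, (¬ ∃ s : L, s ^ 2 = y ^ 2 - 4) →
        ¬ ∃ s : L, s ^ 2 = (y ^ 3 - 3 * y) ^ 2 - 4 := by
      rintro y hy ⟨s, hs⟩
      apply hy
      have h5 : y ^ 2 - 1 ≠ 0 := by
        intro h
        apply hy
        exact ⟨t, by rw [ht]; linear_combination -h⟩
      refine ⟨s / (y ^ 2 - 1), ?_⟩
      rw [div_pow, hs, hid]
      field_simp
    let F : S → S := fun y => ⟨y.1 ^ 3 - 3 * y.1, hmem y.1 y.2⟩
    have hinj : Function.Injective F := by
      intro y y' h
      apply Subtype.ext
      have h5 : y.1 ^ 3 - 3 * y.1 = y'.1 ^ 3 - 3 * y'.1 := congrArg Subtype.val h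
      have h6 : (y.1 - y'.1) * (y.1 ^ 2 + y.1 * y'.1 + y'.1 ^ 2 - 3) = 0 := by
        linear_combination h5
      rcases mul_eq_zero.1 h6 with h7 | h7
      · exact sub_eq_zero.1 h7
      · exfalso
        apply y.2
        refine ⟨(2 * y'.1 + y.1) / t, ?_⟩
        rw [div_pow, ht]
        field_simp
        linear_combination (-4) * h7
    have hfin : Finite S := Subtype.finite
    have hsurj : Function.Surjective F := Finite.surjective_of_injective hinj
    obtain ⟨y, hy⟩ := hsurj ⟨τ, hsq⟩
    have hy' : y.1 ^ 3 - 3 * y.1 = τ := congrArg Subtype.val hy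
    have hset : (univ.filter fun y : L => y ^ 3 - 3 * y = τ) = {y.1} := by
      ext z
      rw [mem_filter, mem_singleton]
      simp only [mem_univ, true_and]
      constructor
      · intro hz
        have hzS : ¬ ∃ s : L, s ^ 2 = z ^ 2 - 4 := by
          rintro ⟨s, hs⟩
          apply hsq
          exact ⟨s * (z ^ 2 - 1), by rw [mul_pow, hs, key z hz]⟩
        have h5 : F ⟨z, hzS⟩ = F y := by
          apply Subtype.ext
          exact hz.trans hy'.symm
        exact congrArg Subtype.val (hinj h5)
      · rintro rfl
        exact hy'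
    rw [hset, card_singleton]
    norm_num

end SCF
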