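import Pool.Agent.SCF.CubA
import Pool.Agent.SHC.Smooth

/-!
# The sum `∑_{u, w} η(u³ + (3 u + θ)² + t w³)` (helper83)

`χ` of order 3, `η` the quadratic character, `ψ = η χ`.
`∑_w η(C + t w³) = ψ(C) χ(-1/t) J(χ, η) + conjugate`, and for `B = ∑_u ψ(u³ + (3 u + θ)²)`:
`u = 1/s`, `s = -(y+2)/θ` give a sum over `y³ - 3 y`, so by card_dickson
`B = η(-1) J(η, ψ) + η(-1) χ⁻¹(θ) ∑_W ψ(θ W - (W + 1)²) = η(-1) J(η, ψ) (1 + χ((θ - 4)/4))`.
-/

set_option autoImplicit false

namespace SCF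

open Finset

variable {L : Type} [Field L] [Fintype L] [DecidableEq L]

/-- the quadratic character with complex values -/
noncomputable def et (L : Type) [Field L] [Fintype L] [DecidableEq L] : MulChar L ℂ :=
  (quadraticChar L).ringHomComp (Int.castRingHom ℂ)

theorem et_apply (x : L) : et L x = ((quadraticChar L x : ℤ) : ℂ) := rfl

theorem ringChar_ne (h2 : (2 : L) ≠ 0) : ringChar L ≠ 2 := by
  intro h
  apply h2
  have := ringChar.Nat.cast_ringChar (R := L)
  rw [h] at this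
  exact_mod_cast this

theorem et_ne_one (h2 : (2 : L) ≠ 0) : et L ≠ 1 :=
  (MulChar.ringHomComp_ne_one_iff (RingHom.injective_int _)).2 (quadraticChar_ne_one (ringChar_ne h2))

theorem et_quad : (et L).IsQuadratic := (quadraticChar_isQuadratic L).comp _

theorem et_sq {x : L} (hx : x ≠ 0) : et L x * et L x = 1 := by
  rw [et_apply, ← Int.cast_mul, ← sq, quadraticChar_sq_one hx, Int.cast_one]

theorem et_sq_mul {x : L} (hx : x ≠ 0) (y : L) : et L (x ^ 2 * y) = et L y := by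
  rw [map_mul, map_pow, sq, et_sq hx, one_mul]

theorem et_mul_self : (et L) * (et L) = 1 := by
  rw [← sq]
  exact et_quad.sq_eq_one

theorem chi_pow {χ : MulChar L ℂ} (hχ : orderOf χ = 3) : χ ^ 3 = 1 := by
  rw [← hχ]
  exact pow_orderOf_eq_one χ

theorem chi_three {χ : MulChar L ℂ} (hχ : orderOf χ = 3) {x : L} (hx : x ≠ 0) : χ x ^ 3 = 1 := by
  rw [← MulChar.pow_apply' χ three_ne_zero, chi_pow hχ, MulChar.one_apply hx.isUnit]

theorem chi_cub {χ : MulChar L ℂ} (hχ : orderOf χ = 3) {x : L} (hx : x ≠ 0) (y : L) :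
    χ (x ^ 3 * y) = χ y := by
  rw [map_mul, map_pow, chi_three hχ hx, one_mul]

theorem chi_neg_one {χ : MulChar L ℂ} (hχ : orderOf χ = 3) : χ (-1) = 1 := by
  have := chi_cub hχ (x := -1) (neg_ne_zero.2 one_ne_zero) 1
  rw [MulChar.map_one] at this
  rw [← this]
  congr 1
  ring

theorem chi_ne_one {χ : MulChar L ℂ} (hχ : orderOf χ = 3) : χ ≠ 1 := by
  rintro rfl
  rw [orderOf_one] at hχ
  omega

theorem inv_order {χ : MulChar L ℂ} (hχ : orderOf χ = 3) : orderOf χ⁻¹ = 3 := by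
  rw [orderOf_inv, hχ]

theorem et_mul_ne_one (h2 : (2 : L) ≠ 0) {χ : MulChar L ℂ} (hχ : orderOf χ = 3) :
    et L * χ ≠ 1 := by
  intro h
  have h1 : (et L * χ) ^ 3 = et L := by
    rw [mul_pow, chi_pow hχ, mul_one, pow_succ, sq, et_mul_self, one_mul]
  rw [h, one_pow] at h1
  exact et_ne_one h2 h1.symm

/-- `-3` is a square -/
theorem et_neg_three {χ : MulChar L ℂ} (hχ : orderOf χ = 3) (h3 : (3 : L) ≠ 0) :
    et L (-3) = 1 := by
  have h1 : 3 ∣ Fintype.card Lˣ := by
    rw [← hχ, Fintype.card_units]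
    exact χ.orderOf_dvd_card_sub_one
  obtain ⟨w, hw⟩ := exists_prime_orderOf_dvd_card 3 h1
  have hw3 : (w : L) ^ 3 = 1 := by
    have := pow_orderOf_eq_one w
    rw [hw] at this
    rw [← Units.val_pow_eq_pow_val, this, Units.val_one]
  have hw1 : (w : L) ≠ 1 := by
    intro h
    have : w = 1 := Units.ext h
    rw [this, orderOf_one] at hw
    omega
  have hω : (w : L) ^ 2 + w + 1 = 0 := by
    have : ((w : L) - 1) * ((w : L) ^ 2 + w + 1) = 0 := by linear_combination hw3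
    exact (mul_eq_zero.1 this).resolve_left (sub_ne_zero.2 hw1)
  have h4 : (-3 : L) = (2 * w + 1) ^ 2 * 1 := by linear_combination -4 * hω
  have h5 : (2 * (w : L) + 1) ≠ 0 := by
    intro h
    rw [h] at h4
    apply h3
    linear_combination -h4
  rw [h4, et_sq_mul h5, MulChar.map_one]

theorem sum_char {φ : MulChar L ℂ} (hφ : φ ≠ 1) {t : L} (ht : t ≠ 0) (C : L) :
    ∑ v : L, φ (C + t * v) = 0 := by
  rw [← MulChar.sum_eq_zero_of_ne_one hφ]
  exact Fintype.sum_bijective (fun v => C + t * v)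
    ((AddGroup.addLeft_bijective C).comp (mulLeft_bijective₀ t ht)) _ _ fun _ => rfl

/-- a sum over cubes -/
theorem sum_cubes {χ : MulChar L ℂ} (hχ : orderOf χ = 3) (g : L → ℂ) :
    ∑ w : L, g (w ^ 3) = ∑ v : L, g v * (1 + χ v + χ⁻¹ v) := by
  rw [← sum_fiberwise univ (fun w : L => w ^ 3)]
  refine sum_congr rfl fun v _ => ?_
  rw [← card_cube hχ v, sum_congr rfl (g := fun _ => g v), sum_const, nsmul_eq_mul, mul_comm]
  intro w hw
  rw [(mem_filter.1 hw).2]

/-- a sum over the Dickson cubic -/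
theorem sum_dickson {χ : MulChar L ℂ} (hχ : orderOf χ = 3) (h2 : (2 : L) ≠ 0) (g : L → ℂ) :
    ∑ y : L, g (y ^ 3 - 3 * y) = ∑ τ : L, g τ + ∑ W ∈ univ.filter (fun W : L => W ≠ 0),
      χ W * g (W + W⁻¹) := by
  rw [← sum_fiberwise univ (fun y : L => y ^ 3 - 3 * y),
    ← sum_fiberwise (univ.filter (fun W : L => W ≠ 0)) (fun W : L => W + W⁻¹), ← sum_add_distrib]
  refine sum_congr rfl fun τ _ => ?_
  have h1 : ∑ y ∈ univ.filter (fun y : L => y ^ 3 - 3 * y = τ), g (y ^ 3 - 3 * y) =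
      ((univ.filter fun y : L => y ^ 3 - 3 * y = τ).card : ℂ) * g τ := by
    rw [sum_congr rfl (g := fun _ => g τ), sum_const, nsmul_eq_mul]
    intro w hw
    rw [(mem_filter.1 hw).2]
  rw [h1, card_dickson hχ h2, add_mul, one_mul, sum_mul, filter_filter]
  congr 1
  refine sum_congr rfl fun W hW => ?_
  rw [(mem_filter.1 hW).2.2]

/-- a Jacobi sum with a parameter -/
theorem sum_jac {φ χ : MulChar L ℂ} (h : φ * χ ≠ 1) {t : L} (ht : t ≠ 0) (C : L) :
    ∑ v : L, φ (C + t * v) * χ v = (φ * χ) C * χ (-t⁻¹) * jacobiSum χ φ := by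
  by_cases hC : C = 0
  · subst hC
    rw [(φ * χ).map_zero, zero_mul, zero_mul]
    have : ∑ v : L, φ (0 + t * v) * χ v = φ t * ∑ v : L, (φ * χ) v := by
      rw [mul_sum]
      refine sum_congr rfl fun v _ => ?_
      rw [zero_add, map_mul, MulChar.mul_apply, mul_assoc]
    rw [this, MulChar.sum_eq_zero_of_ne_one h, mul_zero]
  · rw [jacobiSum, mul_sum]
    have hc : -(C / t) ≠ 0 := neg_ne_zero.2 (div_ne_zero hC ht)
    refine (Fintype.sum_bijective (fun v => -(C / t) * v) (mulLeft_bijective₀ _ hc) _ _ fun v => ?_).symm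
    have h1 : C + t * (-(C / t) * v) = C * (1 - v) := by field_simp; ring
    have h2 : -(C / t) * v = C * -t⁻¹ * v := by field_simp
    rw [h1, h2, map_mul, map_mul, map_mul, MulChar.mul_apply]
    ring

/-- a sum over a quadratic polynomial -/
theorem sum_quad {φ : MulChar L ℂ} (h2 : (2 : L) ≠ 0) (hφ : φ ≠ 1) {E : L} (hE : E ≠ 0) :
    ∑ x : L, φ (E - x ^ 2) = et L E * φ E * jacobiSum (et L) φ := by
  have h1 : ∑ x : L, φ (E - x ^ 2) = ∑ y : L, φ (E - y) * (1 + et L y) := by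
    rw [← sum_fiberwise univ (fun x : L => x ^ 2)]
    refine sum_congr rfl fun v _ => ?_
    have h3 : ((univ.filter fun x : L => x ^ 2 = v).card : ℤ) = quadraticChar L v + 1 := by
      have := quadraticChar_card_sqrts (ringChar_ne h2) v
      rw [← this]
      congr 2
      ext x
      simp
    have h4 : ((univ.filter fun x : L => x ^ 2 = v).card : ℂ) = 1 + et L v := by
      rw [et_apply, add_comm, ← Int.cast_one, ← Int.cast_add, ← h3, Int.cast_natCast]
    rw [← h4, sum_congr rfl (g := fun _ => φ (E - v)), sum_const, nsmul_eq_mul, mul_comm]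
    intro w hw
    rw [(mem_filter.1 hw).2]
  rw [h1]
  simp only [mul_add, mul_one, sum_add_distrib]
  have h5 : ∑ y : L, φ (E - y) = 0 := by
    rw [← sum_char hφ (t := (-1 : L)) (neg_ne_zero.2 one_ne_zero) E]
    refine sum_congr rfl fun y _ => ?_
    congr 1
    ring
  rw [h5, zero_add, jacobiSum, mul_sum]
  refine (Fintype.sum_bijective (fun v => E * v) (mulLeft_bijective₀ _ hE) _ _ fun v => ?_).symm
  have h6 : E - E * v = E * (1 - v) := by ring
  rw [h6, map_mul, map_mul]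
  ring

theorem sumB {χ : MulChar L ℂ} (hχ : orderOf χ = 3) (h2 : (2 : L) ≠ 0) (h3 : (3 : L) ≠ 0) {θ : L}
    (hθ : θ ≠ 0) (hθ4 : θ ≠ 4) (hD : ∃ d : L, d ^ 3 = (4 - θ) / 4) :
    ∑ u : L, (et L * χ) (u ^ 3 + (3 * u + θ) ^ 2) =
      2 * et L (-1) * jacobiSum (et L) (et L * χ) := by
  have h4 : (4 : L) ≠ 0 := by
    have : (4 : L) = 2 * 2 := by norm_num
    rw [this]
    exact mul_ne_zero h2 h2
  set ψ : MulChar L ℂ := et L * χ with hψ
  have hψa : ∀ x : L, ψ x = et L x * χ x := fun x => MulChar.mul_apply _ _ _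
  have hψ1 : ψ ≠ 1 := et_mul_ne_one h2 hχ
  set J := jacobiSum (et L) ψ with hJ
  set e := et L (-1) with he
  set f := et L θ with hf
  set z := χ θ with hz
  have he2 : e * e = 1 := et_sq (neg_ne_zero.2 one_ne_zero)
  have hf2 : f * f = 1 := et_sq hθ
  have hz3 : z ^ 3 = 1 := chi_three hχ hθ
  have hzi : χ⁻¹ θ = z ^ 2 := by
    have h5 : χ⁻¹ θ * z = 1 := by
      rw [hz, ← MulChar.mul_apply, inv_mul_cancel, MulChar.one_apply hθ.isUnit]
    have h6 : χ⁻¹ θ = χ⁻¹ θ * z ^ 3 := by rw [hz3, mul_one]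
    rw [h6]
    linear_combination z ^ 2 * h5
  set G : L → ℂ := fun r => et L r * ψ (1 + r) with hG
  -- inversion
  have e1 : ∑ u : L, ψ (u ^ 3 + (3 * u + θ) ^ 2) =
      z ^ 2 + ∑ s : L, et L s * ψ (1 + s * (3 + θ * s) ^ 2) := by
    have h5 : ∑ u : L, ψ (u ^ 3 + (3 * u + θ) ^ 2) =
        ∑ s : L, ψ (s⁻¹ ^ 3 + (3 * s⁻¹ + θ) ^ 2) :=
      (Fintype.sum_bijective (fun s : L => s⁻¹) inv_involutive.bijective _ _ fun _ => rfl).symm
    rw [h5]
    have h6 : ∀ s : L, ψ (s⁻¹ ^ 3 + (3 * s⁻¹ + θ) ^ 2) =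
        et L s * ψ (1 + s * (3 + θ * s) ^ 2) + if s = 0 then z ^ 2 else 0 := by
      intro s
      by_cases hs : s = 0
      · subst hs
        rw [if_pos rfl, (et L).map_zero, zero_mul, zero_add, inv_zero]
        have : (0 : L) ^ 3 + (3 * 0 + θ) ^ 2 = θ ^ 2 := by ring
        rw [this, map_pow, hψa, mul_pow, sq (et L θ), et_sq hθ, one_mul]
      · rw [if_neg hs, add_zero]
        have h7 : s⁻¹ ^ 3 + (3 * s⁻¹ + θ) ^ 2 = s⁻¹ ^ 3 * (1 + s * (3 + θ * s) ^ 2) := by
          field_simp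
        have h8 : ψ (s⁻¹ ^ 3) = et L s := by
          have hsi : s⁻¹ ≠ 0 := inv_ne_zero hs
          rw [hψa, map_pow χ, chi_three hχ hsi, mul_one]
          have h9 : s⁻¹ ^ 3 = (s⁻¹ ^ 2) ^ 2 * s := by field_simp
          rw [h9, et_sq_mul (pow_ne_zero _ hsi)]
        rw [h7, map_mul, h8]
    rw [sum_congr rfl fun s _ => h6 s, sum_add_distrib, sum_ite_eq' univ (0 : L), if_pos (mem_univ _),
      add_comm]
  -- the point `3 + θ s = 0`
  have e2 : ∑ s : L, et L s * ψ (1 + s * (3 + θ * s) ^ 2) =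
      ∑ s : L, G (s * (3 + θ * s) ^ 2) + f := by
    have h6 : ∀ s : L, et L s * ψ (1 + s * (3 + θ * s) ^ 2) =
        G (s * (3 + θ * s) ^ 2) + if s = -(3 / θ) then f else 0 := by
      intro s
      rw [hG]
      by_cases hs : s = -(3 / θ)
      · have h7 : 3 + θ * s = 0 := by rw [hs]; field_simp; ring
        have h8 : et L s = f := by
          have h9 : s = (θ⁻¹) ^ 2 * (-3 * θ) := by rw [hs]; field_simp
          rw [h9, et_sq_mul (inv_ne_zero hθ), map_mul, et_neg_three hχ h3, one_mul]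
        rw [if_pos hs, h7, h8]
        simp only [ne_eq, OfNat.ofNat_ne_zero, not_false_eq_true, zero_pow, mul_zero, add_zero,
          map_one, mul_one]
        rw [(et L).map_zero, zero_add]
      · have h7 : 3 + θ * s ≠ 0 := by
          intro h0
          apply hs
          field_simp
          linear_combination h0
        rw [if_neg hs, add_zero]
        simp only
        rw [mul_comm s ((3 + θ * s) ^ 2), et_sq_mul h7]
    rw [sum_congr rfl fun s _ => h6 s, sum_add_distrib, sum_ite_eq' univ (-(3 / θ) : L),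
      if_pos (mem_univ _)]
  -- Dickson form
  have e3 : ∑ s : L, G (s * (3 + θ * s) ^ 2) =
      ∑ y : L, (fun τ => G (-((τ + 2) / θ))) (y ^ 3 - 3 * y) := by
    refine (Fintype.sum_bijective (fun y : L => -(2 / θ) + -(1 / θ) * y)
      ((AddGroup.addLeft_bijective _).comp (mulLeft_bijective₀ _
        (neg_ne_zero.2 (one_div_ne_zero hθ)))) _ _ fun y => ?_).symm
    simp only
    congr 1
    field_simp
    ring
  have e3' := e3.trans (sum_dickson hχ h2 (fun τ => G (-((τ + 2) / θ))))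
  have e4 : ∑ τ : L, G (-((τ + 2) / θ)) = e * J := by
    rw [hJ, jacobiSum, mul_sum]
    refine (Fintype.sum_bijective (fun x : L => -2 + θ * x)
      ((AddGroup.addLeft_bijective _).comp (mulLeft_bijective₀ _ hθ)) _ _ fun x => ?_).symm
    simp only [hG]
    have h7 : -((-2 + θ * x + 2) / θ) = -1 * x := by field_simp; ring
    rw [h7, map_mul, ← he, mul_assoc]
    congr 2
    ring_nf
  have e5 : ∑ W ∈ univ.filter (fun W : L => W ≠ 0), χ W * G (-((W + W⁻¹ + 2) / θ)) =
      e * z ^ 2 * (∑ W : L, ψ (θ * W - (W + 1) ^ 2) - e) - e * z ^ 2 * (e * f * z) := by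
    have h6 : ∀ W : L, (if W ≠ 0 then χ W * G (-((W + W⁻¹ + 2) / θ)) else 0) =
        e * z ^ 2 * ψ (θ * W - (W + 1) ^ 2) - (if W = 0 then e * z ^ 2 * e else 0)
          - (if W = -1 then e * z ^ 2 * (e * f * z) else 0) := by
      intro W
      by_cases hW : W = 0
      · subst hW
        have h7 : θ * 0 - (0 + 1) ^ 2 = (-1 : L) := by ring
        have h8 : ψ (-1) = e := by rw [hψa, chi_neg_one hχ, mul_one]
        rw [if_neg (by simp), if_pos rfl, if_neg (by simp), h7, h8]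
        ring
      · rw [if_pos hW, if_neg hW]
        by_cases hW1 : W = -1
        · subst hW1
          have h7 : θ * -1 - (-1 + 1) ^ 2 = -1 * θ := by ring
          have h8 : ψ (-1 * θ) = e * f * z := by
            rw [hψa, map_mul, map_mul, chi_neg_one hχ, one_mul]
          have h9 : (-(((-1 : L) + (-1)⁻¹ + 2) / θ)) = 0 := by
            rw [inv_neg, inv_one]; field_simp; ring
          rw [if_pos rfl, h7, h8, h9, hG]
          simp only
          rw [(et L).map_zero]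
          ring
        · rw [if_neg hW1]
          have hW2 : W + 1 ≠ 0 := fun h0 => hW1 (eq_neg_of_add_eq_zero_left h0)
          have h7 : -((W + W⁻¹ + 2) / θ) = ((W + 1) / (θ * W)) ^ 2 * (-1 * (θ * W)) := by
            field_simp; ring
          have h8 : 1 + -((W + W⁻¹ + 2) / θ) = (θ * W)⁻¹ * (θ * W - (W + 1) ^ 2) := by
            field_simp; ring
          have h9 : (W + 1) / (θ * W) ≠ 0 := div_ne_zero hW2 (mul_ne_zero hθ hW)
          have h10 : ψ ((θ * W)⁻¹) * ψ (θ * W) = 1 := by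
            rw [← map_mul, inv_mul_cancel₀ (mul_ne_zero hθ hW), map_one]
          rw [hG]
          simp only
          rw [h8, h7, et_sq_mul h9, map_mul, map_mul ψ, ← he]
          have h11 : χ W * et L (θ * W) * ψ ((θ * W)⁻¹) = z ^ 2 := by
            have h12 : χ W * et L (θ * W) * ψ ((θ * W)⁻¹) * ψ (θ * W) = z ^ 2 * ψ (θ * W) := by
              rw [mul_assoc, h10, mul_one, hψa, map_mul χ, ← hz]
              linear_combination (-(et L (θ * W)) * χ W) * hz3
            have h13 : ψ (θ * W) ≠ 0 := by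
              intro h0
              rw [h0, mul_zero] at h10
              exact zero_ne_one h10
            exact mul_right_cancel₀ h13 h12
          linear_combination (e * ψ (θ * W - (W + 1) ^ 2)) * h11
    rw [sum_filter, sum_congr rfl fun W _ => h6 W, sum_sub_distrib, sum_sub_distrib,
      sum_ite_eq' univ (0 : L), sum_ite_eq' univ (-1 : L), if_pos (mem_univ _), if_pos (mem_univ _),
      ← mul_sum]
    ring
  have e6 : ∑ W : L, ψ (θ * W - (W + 1) ^ 2) = z * J := by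
    have hE : θ * (θ - 4) / 4 ≠ 0 := div_ne_zero (mul_ne_zero hθ (sub_ne_zero.2 hθ4)) h4
    have h6 := sum_quad h2 hψ1 hE
    have h7 : ∑ W : L, ψ (θ * W - (W + 1) ^ 2) = ∑ x : L, ψ (θ * (θ - 4) / 4 - x ^ 2) := by
      refine (Fintype.sum_bijective (fun x : L => θ / 2 - 1 + x) (AddGroup.addLeft_bijective _)
        _ _ fun x => ?_).symm
      congr 1
      have h42 : (4 : L) = 2 * 2 := by norm_num
      rw [h42]
      field_simp
      ring
    rw [h7, h6, hψa, ← hJ, ← mul_assoc, et_sq hE, one_mul]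
    obtain ⟨d, hd⟩ := hD
    have hd0 : d ≠ 0 := by
      rintro rfl
      rw [zero_pow three_ne_zero] at hd
      have := (div_eq_zero_iff.1 hd.symm).resolve_right h4
      exact hθ4 (sub_eq_zero.1 this).symm
    have h8 : θ * (θ - 4) / 4 = d ^ 3 * (-1 * θ) := by rw [hd]; field_simp; ring
    rw [h8, chi_cub hχ hd0, map_mul, chi_neg_one hχ, one_mul]
  rw [e1, e2, e3', e4, e5, e6]
  linear_combination (e * J - e ^ 2 * f) * hz3 - (z ^ 2 + f) * he2

theorem jac_mul {χ : MulChar L ℂ} (hχ : orderOf χ = 3) (h2 : (2 : L) ≠ 0) :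
    jacobiSum χ (et L) * jacobiSum (et L) (et L * χ) = et L (-1) * (Fintype.card L : ℂ) := by
  obtain ⟨p, hp⟩ := CharP.exists L
  have hp' : Fact p.Prime := ⟨CharP.char_is_prime L p⟩
  let _ : Algebra (ZMod p) L := ZMod.algebra L p
  obtain ⟨a, ha⟩ := SHC.exists_adm L p
  have hprim := ha.prim
  have hq0 : (Fintype.card L : ℂ) ≠ 0 := by exact_mod_cast Fintype.card_ne_zero
  have g1 := jacobiSum_mul_nontrivial (χ := χ) (φ := et L)
    (by rw [mul_comm]; exact et_mul_ne_one h2 hχ) a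
  have g2 := jacobiSum_mul_nontrivial (χ := et L) (φ := et L * χ)
    (by rw [← mul_assoc, et_mul_self, one_mul]; exact chi_ne_one hχ) a
  rw [← mul_assoc, et_mul_self, one_mul] at g2
  have g3 := gaussSum_sq (et_ne_one h2) et_quad hprim
  have n1 : gaussSum χ a ≠ 0 := gaussSum_ne_zero_of_nontrivial hq0 (chi_ne_one hχ) hprim
  have n2 : gaussSum (et L * χ) a ≠ 0 :=
    gaussSum_ne_zero_of_nontrivial hq0 (et_mul_ne_one h2 hχ) hprim
  rw [mul_comm χ (et L)] at g1
  refine mul_left_cancel₀ (mul_ne_zero n1 n2) ?_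
  rw [← g3]
  linear_combination (gaussSum χ a * jacobiSum (et L) (et L * χ)) * g1 +
    (gaussSum χ a * gaussSum (et L) a) * g2

theorem three_ne {L : Type} [Field L] [Fintype L] (hq : Fintype.card L % 3 = 1) : (3 : L) ≠ 0 := by
  intro h
  have h1 : ((Fintype.card L : ℕ) : L) = 0 := FiniteField.cast_card_eq_zero L
  have h3 : Fintype.card L = 3 * (Fintype.card L / 3) + 1 := by omega
  rw [h3] at h1
  push_cast at h1
  rw [h, zero_mul, zero_add] at h1
  exact one_ne_zero h1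

open scoped Classical in
/-- the key sum -/
theorem sum_S {θ : L} (h2 : (2 : L) ≠ 0) (hq : Fintype.card L % 3 = 1) (hθ : θ ≠ 0) (hθ4 : θ ≠ 4)
    (hD : ∃ d : L, d ^ 3 = (4 - θ) / 4) (t : L) (ht : t ≠ 0) :
    ∑ u : L, ∑ w : L, quadraticChar L (u ^ 3 + (3 * u + θ) ^ 2 + t * w ^ 3) =
        if ∃ c : L, c ^ 3 = t then 4 * (Fintype.card L : ℤ) else -2 * (Fintype.card L : ℤ) := by
  have h3 := three_ne hq
  obtain ⟨χ, hχ⟩ := MulChar.exists_mulChar_orderOf L (n := 3) (by omega)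
    (Complex.isPrimitiveRoot_exp 3 three_ne_zero)
  have hχ' := inv_order hχ
  have hin : ∀ C : L, ((∑ w : L, quadraticChar L (C + t * w ^ 3) : ℤ) : ℂ) =
      (et L * χ) C * χ (-t⁻¹) * jacobiSum χ (et L) +
        (et L * χ⁻¹) C * χ⁻¹ (-t⁻¹) * jacobiSum χ⁻¹ (et L) := by
    intro C
    have h5 := sum_cubes hχ (fun v => et L (C + t * v))
    simp only [mul_add, mul_one, sum_add_distrib] at h5
    rw [sum_char (et_ne_one h2) ht, zero_add, sum_jac (et_mul_ne_one h2 hχ) ht,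
      sum_jac (et_mul_ne_one h2 hχ') ht] at h5
    rw [← h5, Int.cast_sum]
    rfl
  have hS : ((∑ u : L, ∑ w : L, quadraticChar L (u ^ 3 + (3 * u + θ) ^ 2 + t * w ^ 3) : ℤ) : ℂ) =
      2 * (Fintype.card L : ℂ) * (χ (-t⁻¹) + χ⁻¹ (-t⁻¹)) := by
    rw [Int.cast_sum, sum_congr rfl fun u _ => hin _, sum_add_distrib, ← sum_mul, ← sum_mul,
      ← sum_mul, ← sum_mul, sumB hχ h2 h3 hθ hθ4 hD, sumB hχ' h2 h3 hθ hθ4 hD]
    have j1 := jac_mul hχ h2
    have j2 := jac_mul hχ' h2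
    have he2 : et L (-1) * et L (-1) = 1 := et_sq (neg_ne_zero.2 one_ne_zero)
    linear_combination (2 * et L (-1) * χ (-t⁻¹)) * j1 + (2 * et L (-1) * χ⁻¹ (-t⁻¹)) * j2 +
      (2 * (Fintype.card L : ℂ) * (χ (-t⁻¹) + χ⁻¹ (-t⁻¹))) * he2
  have hn : -t⁻¹ ≠ 0 := neg_ne_zero.2 (inv_ne_zero ht)
  have hc := chi_cube hχ hn
  have hc' := chi_cube hχ' hn
  have hiff : (∃ c : L, c ^ 3 = -t⁻¹) ↔ ∃ c : L, c ^ 3 = t := by
    constructor
    · rintro ⟨c, hc⟩
      refine ⟨-c⁻¹, ?_⟩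
      have : (-c⁻¹) ^ 3 = -(c ^ 3)⁻¹ := by ring
      rw [this, hc, inv_neg, inv_inv, neg_neg]
    · rintro ⟨c, hc⟩
      refine ⟨-c⁻¹, ?_⟩
      rw [← hc]
      ring
  by_cases hcube : ∃ c : L, c ^ 3 = t
  · rw [if_pos (hiff.2 hcube)] at hc hc'
    rw [if_pos hcube]
    rw [hc, hc'] at hS
    have : (((∑ u : L, ∑ w : L, quadraticChar L (u ^ 3 + (3 * u + θ) ^ 2 + t * w ^ 3) : ℤ)) : ℂ) =
      ((4 * (Fintype.card L : ℤ) : ℤ) : ℂ) := by
      rw [hS]; push_cast; ring
    exact_mod_cast this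
  · rw [if_neg fun h => hcube (hiff.1 h)] at hc
    rw [if_neg hcube]
    rw [hc] at hS
    have : (((∑ u : L, ∑ w : L, quadraticChar L (u ^ 3 + (3 * u + θ) ^ 2 + t * w ^ 3) : ℤ)) : ℂ) =
      ((-2 * (Fintype.card L : ℤ) : ℤ) : ℂ) := by
      rw [hS]; push_cast; ring
    exact_mod_cast this

end SCF
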