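import Mathlib

/-!
# A family of cubic fourfolds (helper83)

`F = f(v0, v1, v2) + f(v3, v4, v5)` with the ternary cubic
`f(m, y, z) = y² z - m³ - z (3 m + θ z)²` (elliptic curve `y² = m³ + (3 m + θ)²`, smooth for
`θ ≠ 0, 4` in characteristic `≠ 2, 3`; the point `m = 0` has order 3).

Over a field with `q ≡ 1 mod 3` elements (char `≠ 2, 3`), `(4 - θ) / 4` a nonzero cube, and
`a = - ∑_u η(u³ + (3 u + θ)²)`:
`∑_{u, w} η(u³ + (3 u + θ)² + t w³) = 4 q` for `t` a nonzero cube, `-2 q` for `t` not a cube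
(module Cub), so `#{f = t} = q² + a + 6 q` or `q² + a - 3 q`, `#{f = 0} = q² - (q - 1) a`, and
`#{F = 0} = q⁵ + (q - 1) (q a² + 18 q²)` (module Cnt).  For `a² = 4 q`: `q⁵ + 22 (q - 1) q²`, i.e.
`1 + q + q² + q³ + q⁴ + 22 q²` projective points.
-/

set_option autoImplicit false

namespace SCF

open MvPolynomial

section

variable {L : Type*} [CommRing L]

/-- the ternary cubic form, as a function -/
def ff (θ m y z : L) : L := y ^ 2 * z - m ^ 3 - z * (3 * m + θ * z) ^ 2

/-- the cubic form in six variables, as a function -/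
def FF (θ : L) (v : Fin 6 → L) : L := ff θ (v 0) (v 1) (v 2) + ff θ (v 3) (v 4) (v 5)

/-- the cubic form in six variables -/
noncomputable def PP (θ : L) : MvPolynomial (Fin 6) L :=
  (X 1 ^ 2 * X 2 - X 0 ^ 3 - X 2 * (3 * X 0 + C θ * X 2) ^ 2)
    + (X 4 ^ 2 * X 5 - X 3 ^ 3 - X 5 * (3 * X 3 + C θ * X 5) ^ 2)

theorem aeval_PP {A : Type*} [CommRing A] [Algebra L A] (θ : L) (v : Fin 6 → A) :
    aeval v (PP θ) = FF (algebraMap L A θ) v := by
  simp only [PP, FF, ff, map_add, map_sub, map_mul, map_pow, aeval_X, aeval_C, map_ofNat]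

end

end SCF
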